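import Mathlib
import Pool.Agent.H57.AP4

set_option autoImplicit false

namespace Pool.Agent.Results.MP_9f658e_co.AntidirectedPaths

open Pool.Agent.H50.AP

universe u v

/-- `D` is an oriented graph: no loops and no pair of opposite arcs. -/
def Oriented {V : Type u} (D : V → V → Prop) : Prop :=
  ∀ x y, D x y → ¬ D y x

/-- Every vertex has outdegree `0` or at least `m`, and indegree `0` or at least `m`. -/
def DegreesAtLeast {V : Type u} (D : V → V → Prop) (m : ℕ) : Prop :=
  ∀ x, (Set.ncard {y | D x y} = 0 ∨ m ≤ Set.ncard {y | D x y}) ∧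
    (Set.ncard {y | D y x} = 0 ∨ m ≤ Set.ncard {y | D y x})

/-- The minimum pseudo-semidegree: the largest `m` with `DegreesAtLeast D m` if `D` has an arc,
and `0` if `D` has no arc. -/
noncomputable def pseudoSemidegree {V : Type u} (D : V → V → Prop) : ℕ :=
  sSup {m | (∃ x y, D x y) ∧ DegreesAtLeast D m}

/-- `A` is an antidirected path with `k` edges, on the vertices `0, 1, ..., k`: an orientation of
the path `0 1 ... k` in which consecutive edges point in opposite directions. -/
def IsAntidirectedPath {k : ℕ} (A : Fin (k + 1) → Fin (k + 1) → Prop) : Prop :=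
  (∀ i j : Fin (k + 1), A i j → (i : ℕ) + 1 = j ∨ (j : ℕ) + 1 = i) ∧
  (∀ i j : Fin (k + 1), (i : ℕ) + 1 = j → Xor (A i j) (A j i)) ∧
  (∀ i j l : Fin (k + 1), (i : ℕ) + 1 = j → (j : ℕ) + 1 = l → (A i j ↔ A l j))

/-- `D` contains `A`: some injective map sends every arc of `A` to an arc of `D`. -/
def Contains {V : Type u} {W : Type v} (D : V → V → Prop) (A : W → W → Prop) : Prop :=
  ∃ f : W → V, Function.Injective f ∧ ∀ i j, A i j → D (f i) (f j)

theorem ncard_out {V : Type u} [Fintype V] (G : V → V → Prop) (v : V) :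
    Set.ncard {w | G v w} = (N G v).card := by
  rw [← Set.ncard_coe_finset]
  congr 1
  ext w
  simp [mem_N]

theorem ncard_in {V : Type u} [Fintype V] (G : V → V → Prop) (v : V) :
    Set.ncard {w | G w v} = (N (Rv G) v).card := by
  rw [← ncard_out]
  rfl

theorem orient_list {V : Type u} {G : V → V → Prop} {k : ℕ} {P : List (V × Bool)}
    (hP : IsAP G P) (hl : P.length = 2 * (k / 2 + 1)) (r : Bool) :
    ∃ Q : List (V × Bool), IsAP G Q ∧ ∃ h : Q.length = k + 1, (Q[0]'(by omega)).2 = r := by
  have hnd := hP.2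
  by_cases hr : (P[0]'(by omega)).2 = r
  · refine ⟨P.take (k + 1), ⟨hP.1.take _, ?_⟩, ?_, ?_⟩
    · rw [List.map_take]; exact (List.take_sublist _ _).nodup hnd
    · rw [List.length_take]; omega
    · rw [List.getElem_take]; exact hr
  · rcases Nat.even_or_odd' k with ⟨s, rfl | rfl⟩
    · refine ⟨P.drop 1, ⟨hP.1.drop _, ?_⟩, ?_, ?_⟩
      · rw [List.map_drop]; exact (List.drop_sublist _ _).nodup hnd
      · rw [List.length_drop]; omega
      · rw [List.getElem_drop]
        have := role_getElem hP.1 (1 + 0) (by omega)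
        rw [this]
        revert hr
        cases (P[0]'(by omega)).2 <;> cases r <;> simp
    · refine ⟨P.reverse, ⟨?_, ?_⟩, ?_, ?_⟩
      · rw [List.isChain_reverse]; exact hP.1.imp (fun _ _ h => h.symm)
      · rw [List.map_reverse]; exact List.nodup_reverse.mpr hnd
      · rw [List.length_reverse]; omega
      · rw [List.getElem_reverse]
        have := role_getElem hP.1 (P.length - 1 - 0) (by omega)
        rw [this]
        have h1 : (P.length - 1 - 0) % 2 = 1 := by omega
        rw [h1]
        revert hr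
        cases (P[0]'(by omega)).2 <;> cases r <;> simp

/-- In an antidirected path the direction of the first arc determines all the others. -/
theorem anti_dir {k : ℕ} {A : Fin (k + 1) → Fin (k + 1) → Prop} (hA : IsAntidirectedPath A) :
    ∃ r : Bool, ∀ (i : ℕ) (hi : i < k),
      (A ⟨i, by omega⟩ ⟨i + 1, by omega⟩ ↔ (r ^^ decide (i % 2 = 1)) = true) ∧
      (A ⟨i + 1, by omega⟩ ⟨i, by omega⟩ ↔ (r ^^ decide (i % 2 = 1)) = false) := by
  classical
  obtain ⟨h1, h2, h3⟩ := hA
  by_cases hk : k = 0
  · subst hk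
    exact ⟨true, fun i hi => absurd hi (by omega)⟩
  · refine ⟨decide (A ⟨0, by omega⟩ ⟨1, by omega⟩), ?_⟩
    intro i
    induction i with
    | zero =>
      intro hi
      have hx := h2 ⟨0, by omega⟩ ⟨1, by omega⟩ rfl
      constructor
      · simp
      · have hx' : A ⟨0 + 1, by omega⟩ ⟨0, by omega⟩ ↔ ¬ A ⟨0, by omega⟩ ⟨1, by omega⟩ := by
          rcases hx with hx | hx
          · exact ⟨fun h => absurd h hx.2, fun h => absurd hx.1 h⟩
          · exact ⟨fun _ => hx.2, fun _ => hx.1⟩
        rw [hx']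
        by_cases hy : A ⟨0, by omega⟩ ⟨1, by omega⟩
        · rw [decide_eq_true hy]; simpa using hy
        · rw [decide_eq_false hy]; simpa using hy
    | succ i ih =>
      intro hi
      obtain ⟨ih1, ih2⟩ := ih (by omega)
      have hx := h3 ⟨i, by omega⟩ ⟨i + 1, by omega⟩ ⟨i + 1 + 1, by omega⟩ rfl rfl
      have hx0 := h2 ⟨i, by omega⟩ ⟨i + 1, by omega⟩ rfl
      have hx1 := h2 ⟨i + 1, by omega⟩ ⟨i + 1 + 1, by omega⟩ rfl
      have hpar : decide ((i + 1) % 2 = 1) = !decide (i % 2 = 1) := by
        rcases Nat.mod_two_eq_zero_or_one i with h | h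
        · have : (i + 1) % 2 = 1 := by omega
          simp [h, this]
        · have : (i + 1) % 2 = 0 := by omega
          simp [h, this]
      rw [hpar, Bool.xor_not]
      have e1 : A ⟨i + 1 + 1, by omega⟩ ⟨i + 1, by omega⟩ ↔
          (!(decide (A ⟨0, by omega⟩ ⟨1, by omega⟩) ^^ decide (i % 2 = 1))) = false := by
        rw [← hx, ih1]
        cases (decide (A ⟨0, by omega⟩ ⟨1, by omega⟩) ^^ decide (i % 2 = 1)) <;> simp
      refine ⟨?_, e1⟩
      have e2 : A ⟨i + 1, by omega⟩ ⟨i + 1 + 1, by omega⟩ ↔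
          ¬ A ⟨i + 1 + 1, by omega⟩ ⟨i + 1, by omega⟩ := by
        rcases hx1 with hx1 | hx1
        · exact ⟨fun _ => hx1.2, fun _ => hx1.1⟩
        · exact ⟨fun h => absurd h hx1.2, fun h => absurd hx1.1 h⟩
      rw [e2, e1]
      cases (decide (A ⟨0, by omega⟩ ⟨1, by omega⟩) ^^ decide (i % 2 = 1)) <;> simp

/-- For every `k`, every finite oriented graph of minimum pseudo-semidegree greater than `k / 2`
contains every antidirected path with `k` edges. -/
theorem result :
    ∀ (k : ℕ) (V : Type u) [Finite V] (D : V → V → Prop),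
      Oriented D → (k : ℚ) / 2 < pseudoSemidegree D →
      ∀ A : Fin (k + 1) → Fin (k + 1) → Prop, IsAntidirectedPath A → Contains D A := by
  intro k V _ D ho hk A hA
  classical
  have : Fintype V := Fintype.ofFinite V
  have hk2 : k < 2 * pseudoSemidegree D := by
    have : (k : ℚ) < 2 * pseudoSemidegree D := by linarith
    exact_mod_cast this
  set S : Set ℕ := {m | (∃ x y, D x y) ∧ DegreesAtLeast D m} with hS
  have hne : S.Nonempty := by
    by_contra hcon
    rw [Set.not_nonempty_iff_eq_empty] at hcon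
    have : pseudoSemidegree D = 0 := by
      unfold pseudoSemidegree
      rw [← hS, hcon]
      simp
    omega
  have hbdd : BddAbove S := by
    obtain ⟨m0, ⟨x, y, hxy⟩, -⟩ := hne
    refine ⟨Set.ncard {y | D x y}, fun m hm => ?_⟩
    rcases (hm.2 x).1 with h | h
    · exfalso
      rw [Set.ncard_eq_zero (Set.toFinite _)] at h
      have : y ∈ ({y | D x y} : Set V) := hxy
      rw [h] at this
      exact this
    · exact h
  have hmem : pseudoSemidegree D ∈ S := Nat.sSup_mem hne hbdd
  obtain ⟨harc, hdeg⟩ := hmem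
  have hout : ∀ a b, D a b → k / 2 + 1 ≤ (N D a).card := by
    intro a b hab
    have h0 := ncard_out D a
    rcases (hdeg a).1 with h | h
    · exfalso
      rw [h0, Finset.card_eq_zero] at h
      have : b ∈ N D a := mem_N.mpr hab
      rw [h] at this
      simp at this
    · omega
  have hin : ∀ a b, D a b → k / 2 + 1 ≤ (N (Rv D) b).card := by
    intro a b hab
    have h0 := ncard_in D b
    rcases (hdeg b).2 with h | h
    · exfalso
      rw [h0, Finset.card_eq_zero] at h
      have : a ∈ N (Rv D) b := mem_N.mpr hab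
      rw [h] at this
      simp at this
    · omega
  obtain ⟨P, hP, hl⟩ := Pool.Agent.H57.AP.exists_long (d := k / 2 + 1) ho harc hout hin
  obtain ⟨r, hr⟩ := anti_dir hA
  obtain ⟨Q, hQ, hQl, hQr⟩ := orient_list hP hl r
  obtain ⟨f, hf, hf2⟩ := to_fun hQ hQl r hQr
  refine ⟨f, hf, ?_⟩
  intro i j hij
  rcases hA.1 i j hij with h | h
  · have hi : (i : ℕ) < k := by have := j.2; omega
    have hf3 := hf2 ⟨i, hi⟩
    have e1 : (⟨i, hi⟩ : Fin k).castSucc = i := Fin.ext rfl
    have e2 : (⟨i, hi⟩ : Fin k).succ = j := Fin.ext h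
    rw [e1, e2] at hf3
    have hb := (hr i hi).1
    have hj : (⟨(i : ℕ) + 1, by omega⟩ : Fin (k + 1)) = j := Fin.ext h
    rw [hj] at hb
    have hb2 := hb.mp hij
    simp only at hf3
    rw [hb2] at hf3
    simpa [HA] using hf3
  · have hi : (j : ℕ) < k := by have := i.2; omega
    have hf3 := hf2 ⟨j, hi⟩
    have e1 : (⟨j, hi⟩ : Fin k).castSucc = j := Fin.ext rfl
    have e2 : (⟨j, hi⟩ : Fin k).succ = i := Fin.ext h
    rw [e1, e2] at hf3
    have hb := (hr j hi).2
    have hj : (⟨(j : ℕ) + 1, by omega⟩ : Fin (k + 1)) = i := Fin.ext h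
    rw [hj] at hb
    have hb2 := hb.mp hij
    simp only at hf3
    rw [hb2] at hf3
    simpa [HA] using hf3

end Pool.Agent.Results.MP_9f658e_co.AntidirectedPaths
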